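import Mathlib
import Pool.Agent.Results.MP_7b039f_nt.FrobeniusIncidence

set_option autoImplicit false

/-!
# All powers of the Frobenius: lower bound for the abscissa
-/

open Polynomial LinearAlgebra.Projectivization

namespace Pool.Agent.Y713.FI

open Pool.Agent.Results.MP_7b039f_nt.FrobeniusIncidence

lemma sum_pow_exp {R : Type*} [CommSemiring R] (p : ℕ) [Fact p.Prime] [CharP R p] {e r : ℕ}
    (hr : r = p ^ e) {ι : Type*} (s : Finset ι) (f : ι → R) :
    (∑ i ∈ s, f i) ^ r = ∑ i ∈ s, f i ^ r := by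
  subst hr
  exact sum_pow_char_pow p e s f

/-- From a geometric point outside `f = 0` find a rational Frobenius point whose fibre is not
contained in `f = 0`. -/
lemma exists_good_pow {A K L : Type} [CommRing A] [Infinite A] [Field K] [Field L] [Algebra A K]
    [Algebra K L] [IsAlgClosed L] (hinj : Function.Injective (algebraMap A K))
    (p : ℕ) [Fact p.Prime] [CharP L p] {e r : ℕ} (hr : r = p ^ e) {n : ℕ}
    (f : MvPolynomial (Fin (n + 1) ⊕ Fin (n + 1)) K)
    (x0 y0 : Fin (n + 1) → L) (hx0 : x0 ≠ 0)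
    (hV : OnV n r x0 y0)
    (hf : MvPolynomial.aeval (Sum.elim x0 y0) f ≠ 0) :
    ∃ (k : Fin (n + 1)) (a : Fin (n + 1) → A) (g : MvPolynomial (Fin n) K),
      a k ≠ 0 ∧ g ≠ 0 ∧ ∀ z : Fin n → K, MvPolynomial.eval z g =
        MvPolynomial.eval (Sum.elim (fun i => (algebraMap A K (a i)) ^ r)
          (hyp k (fun i => algebraMap A K (a i)) z)) f := by
  classical
  have hp : 0 < r := hr ▸ pow_pos (Fact.out : p.Prime).pos e
  -- p-th roots
  have hroot : ∀ i, ∃ a0 : L, a0 ^ r = x0 i := fun i => IsAlgClosed.exists_pow_nat_eq (x0 i) hp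
  choose a0 ha0 using hroot
  have hsum : ∑ i, a0 i * y0 i = 0 := by
    have h1 : (∑ i, a0 i * y0 i) ^ r = 0 := by
      rw [sum_pow_exp p hr]
      rw [OnV] at hV
      rw [← hV]
      apply Finset.sum_congr rfl
      intro i _
      rw [mul_pow, ha0]
    exact pow_eq_zero_iff (by omega) |>.mp h1
  obtain ⟨k, hk⟩ : ∃ k, x0 k ≠ 0 := by
    by_contra hcon
    push Not at hcon
    exact hx0 (_root_.funext hcon)
  have hak : a0 k ≠ 0 := by
    intro h0
    apply hk
    rw [← ha0, h0, zero_pow (by omega)]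
  obtain ⟨z0, hz0⟩ : ∃ z0 : Fin n → L, ∀ j, z0 j = y0 (k.succAbove j) / a0 k :=
    ⟨fun j => y0 (k.succAbove j) / a0 k, fun j => rfl⟩
  have hy0 : hyp k a0 z0 = y0 := by
    funext i
    rcases Fin.eq_self_or_eq_succAbove k i with rfl | ⟨j, rfl⟩
    · rw [hyp_same]
      rw [Fin.sum_univ_succAbove _ i] at hsum
      have h2 : ∑ j, a0 (i.succAbove j) * z0 j
          = (∑ j, a0 (i.succAbove j) * y0 (i.succAbove j)) / a0 i := by
        rw [Finset.sum_div]
        apply Finset.sum_congr rfl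
        intro j _
        rw [hz0, mul_div_assoc]
      rw [h2, neg_eq_iff_eq_neg, div_eq_iff hak]
      linear_combination hsum
    · rw [hyp_succAbove, hz0]
      field_simp
  obtain ⟨θ, hθ⟩ : ∃ θ : Fin (n + 1) ⊕ Fin (n + 1) → MvPolynomial (Fin (n + 1) ⊕ Fin n) K, θ =
    Sum.elim (fun i => MvPolynomial.X (Sum.inl i) ^ r)
      (hyp k (fun i => MvPolynomial.X (Sum.inl i)) (fun j => MvPolynomial.X (Sum.inr j))) :=
    ⟨_, rfl⟩
  obtain ⟨G, hG⟩ : ∃ G : MvPolynomial (Fin (n + 1) ⊕ Fin n) K, G = MvPolynomial.bind₁ θ f :=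
    ⟨_, rfl⟩
  have hGeval : ∀ {R : Type} [CommRing R] [Algebra K R] (a : Fin (n + 1) → R) (z : Fin n → R),
      MvPolynomial.aeval (Sum.elim a z) G
        = MvPolynomial.aeval (Sum.elim (fun i => a i ^ r) (hyp k a z)) f := by
    intro R _ _ a z
    rw [hG, MvPolynomial.aeval_bind₁]
    congr 1
    apply congrArg
    funext i
    rcases i with i | i
    · simp [hθ]
    · simp only [hθ, Sum.elim_inr]
      have := map_hyp (R := MvPolynomial (Fin (n + 1) ⊕ Fin n) K) (R' := R)
        ((MvPolynomial.aeval (Sum.elim a z) : MvPolynomial (Fin (n + 1) ⊕ Fin n) K →ₐ[K] R) :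
          MvPolynomial (Fin (n + 1) ⊕ Fin n) K →+* R) k (fun i => MvPolynomial.X (Sum.inl i))
        (fun j => MvPolynomial.X (Sum.inr j)) i
      simpa using this
  have hG0 : G ≠ 0 := by
    intro h0
    apply hf
    have h1 := hGeval a0 z0
    rw [h0, map_zero, hy0] at h1
    rw [h1]
    congr 1
    apply congrArg
    congr 1
    funext i
    exact (ha0 i).symm
  have hGX : G * MvPolynomial.X (Sum.inl k) ≠ 0 :=
    mul_ne_zero hG0 (MvPolynomial.X_ne_zero _)
  obtain ⟨v, hv, hv0⟩ : ∃ v ∈ Set.pi Set.univ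
      (fun _ : Fin (n + 1) ⊕ Fin n => Set.range (algebraMap A K)),
      MvPolynomial.eval v (G * MvPolynomial.X (Sum.inl k)) ≠ 0 := by
    by_contra hcon
    push Not at hcon
    apply hGX
    apply MvPolynomial.funext_set (fun _ : Fin (n + 1) ⊕ Fin n => Set.range (algebraMap A K))
      (fun _ => Set.infinite_range_of_injective hinj)
    intro x hx
    rw [hcon x hx, map_zero]
  have hv' : ∀ i, ∃ b : A, algebraMap A K b = v i := fun i => hv i (Set.mem_univ i)
  choose b hb using hv'
  refine ⟨k, fun i => b (Sum.inl i),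
    MvPolynomial.aeval (Sum.elim (fun i => MvPolynomial.C (v (Sum.inl i))) MvPolynomial.X) G,
    ?_, ?_, ?_⟩
  · intro h0
    apply hv0
    simp only at h0
    rw [map_mul, MvPolynomial.eval_X, ← hb, h0, map_zero, mul_zero]
  · intro h0
    apply hv0
    rw [map_mul]
    have h1 : MvPolynomial.eval (fun j => v (Sum.inr j))
      (MvPolynomial.aeval (Sum.elim (fun i => MvPolynomial.C (v (Sum.inl i))) MvPolynomial.X) G)
        = MvPolynomial.eval v G := by
      rw [← MvPolynomial.coe_aeval_eq_eval, ← MvPolynomial.coe_aeval_eq_eval]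
      simp only [RingHom.coe_coe]
      rw [← AlgHom.comp_apply, MvPolynomial.comp_aeval]
      congr 1
      apply congrArg
      funext i
      rcases i with i | i <;> simp
    rw [← h1, h0, map_zero, zero_mul]
  · intro z
    have h1 : MvPolynomial.eval z
      (MvPolynomial.aeval (Sum.elim (fun i => MvPolynomial.C (v (Sum.inl i))) MvPolynomial.X) G)
        = MvPolynomial.aeval (Sum.elim (fun i => v (Sum.inl i)) z) G := by
      rw [← MvPolynomial.coe_aeval_eq_eval]
      simp only [RingHom.coe_coe]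
      rw [← AlgHom.comp_apply, MvPolynomial.comp_aeval]
      congr 1
      apply congrArg
      funext i
      rcases i with i | i <;> simp
    rw [h1, hGeval, ← MvPolynomial.coe_aeval_eq_eval]
    simp only [RingHom.coe_coe, hb]

/-- The key divergence statement. -/
lemma diverges_pow {F : Type} [Field F] [Finite F] (p : ℕ) [Fact p.Prime] [CharP F p]
    {e r : ℕ} (hr : r = p ^ e) (hp2 : 2 ≤ r) {n : ℕ} (hn : r ≤ n) (S : Set (BiPoly (RatFunc F) n))
    (f : BiPoly (RatFunc F) n) (hfS : f ∈ S)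
    (hbih : IsBihomogeneous f) (x0 y0 : Fin (n + 1) → AlgebraicClosure (RatFunc F))
    (hx0 : x0 ≠ 0) (hV : OnV n r x0 y0)
    (hf : evBar f x0 y0 ≠ 0) (s : ℝ)
    (hs : s ≤ (n : ℝ) / ((n : ℝ) + 1 - r)) :
    ¬ Summable (fun P : RatPts (RatFunc F) n r S => zetaTerm s P) := by
  classical
  intro hsum
  simp only [zetaTerm] at hsum
  have hn2 : 2 ≤ n := hp2.trans hn
  have hq2 : 2 ≤ Nat.card F := Finite.one_lt_card
  have : CharP (RatFunc F) p := charP_of_injective_algebraMap (algebraMap F (RatFunc F)).injective p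
  have : CharP (AlgebraicClosure (RatFunc F)) p :=
    charP_of_injective_algebraMap (algebraMap (RatFunc F) (AlgebraicClosure (RatFunc F))).injective p
  have hinj : Function.Injective (algebraMap F[X] (RatFunc F)) :=
    IsFractionRing.injective F[X] (RatFunc F)
  obtain ⟨k, a, g, hak, hg0, hg⟩ := exists_good_pow (A := F[X]) (K := RatFunc F)
    (L := AlgebraicClosure (RatFunc F)) hinj p hr f x0 y0 hx0 hV hf
  obtain ⟨α, β, hαβ⟩ := hbih
  obtain ⟨q, hq⟩ : ∃ q : ℝ, q = (Nat.card F : ℝ) := ⟨_, rfl⟩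
  have hq2' : (2 : ℝ) ≤ q := by rw [hq]; exact_mod_cast hq2
  have hq1 : (1 : ℝ) ≤ q := by linarith
  have hq0 : (0 : ℝ) < q := by linarith
  rw [← hq] at hsum
  -- the critical exponent
  obtain ⟨s0, hs0⟩ : ∃ s0 : ℝ, s0 = (n : ℝ) / ((n : ℝ) + 1 - r) := ⟨_, rfl⟩
  rw [← hs0] at hs
  have hden : (0 : ℝ) < (n : ℝ) + 1 - r := by
    have : (r : ℝ) ≤ n := by exact_mod_cast hn
    linarith
  have hs0n : s0 * ((n : ℝ) + 1 - r) = n := by rw [hs0]; field_simp
  have hsum0 : Summable (fun P : RatPts (RatFunc F) n r S => q ^ (-(s0 * (hgt P : ℝ)))) := by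
    refine Summable.of_nonneg_of_le (fun P => by positivity) (fun P => ?_) hsum
    apply Real.rpow_le_rpow_of_exponent_le hq1
    have : (0 : ℝ) ≤ (hgt P : ℝ) := by positivity
    nlinarith
  -- the rational Frobenius point and the fibre
  set aK : Fin (n + 1) → RatFunc F := fun i => algebraMap F[X] (RatFunc F) (a i) with haK
  have hakK : aK k ≠ 0 := by
    rw [haK]
    simpa using hak
  have hx1 : (fun i => aK i ^ r) ≠ 0 := by
    intro h0
    exact hakK (pow_eq_zero_iff (by omega) |>.mp (congrFun h0 k))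
  set P0 : ℙ (RatFunc F) (Fin (n + 1) → RatFunc F) := Projectivization.mk (RatFunc F) _ hx1 with hP0
  obtain ⟨w, hw⟩ := Projectivization.exists_smul_eq_mk_rep (RatFunc F) (fun i => aK i ^ r) hx1
  have hMinj := hypLin_injective k aK hakK
  set Q : ℙ (RatFunc F) (Fin n → RatFunc F) → ℙ (RatFunc F) (Fin (n + 1) → RatFunc F) :=
    Projectivization.map (hypLin k aK) hMinj with hQ
  have hQinj : Function.Injective Q := Projectivization.map_injective _ hMinj
  have hQrep : ∀ R : ℙ (RatFunc F) (Fin n → RatFunc F), ∃ t : (RatFunc F)ˣ,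
      (Q R).rep = t • hyp k aK R.rep := by
    intro R
    have hne : hypLin k aK R.rep ≠ 0 := by
      intro h0
      exact R.rep_nonzero (hMinj (by rw [h0, map_zero]))
    have h1 : Q R = Projectivization.mk (RatFunc F) (hypLin k aK R.rep) hne := by
      conv_lhs => rw [← R.mk_rep]
      rw [hQ, Projectivization.map_mk]
    obtain ⟨t, ht⟩ := Projectivization.exists_smul_eq_mk_rep (RatFunc F) (hypLin k aK R.rep) hne
    refine ⟨t, ?_⟩
    rw [h1, ← ht]
    rfl
  choose t ht using hQrep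
  -- primitive representatives
  have hprim : ∀ R : ℙ (RatFunc F) (Fin n → RatFunc F), ∃ (b : RatFunc F) (c : Fin n → F[X]),
      b ≠ 0 ∧ (∀ i, algebraMap F[X] (RatFunc F) (c i) = b * R.rep i) ∧
      (∀ d : F[X], (∀ i, d ∣ c i) → IsUnit d) := fun R => exists_primitive R.rep R.rep_nonzero
  choose b c hb hc hcp using hprim
  -- the good vectors
  have hzne : ∀ z : {z : Fin n → F[X] // z ≠ 0 ∧
      MvPolynomial.eval (fun i => algebraMap F[X] (RatFunc F) (z i)) g ≠ 0},
      (fun i => algebraMap F[X] (RatFunc F) (z.1 i)) ≠ 0 := by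
    intro z h0
    apply z.2.1
    funext i
    exact hinj (by rw [Pi.zero_apply, map_zero]; exact congrFun h0 i)
  obtain ⟨R, hR⟩ : ∃ R : {z : Fin n → F[X] // z ≠ 0 ∧
      MvPolynomial.eval (fun i => algebraMap F[X] (RatFunc F) (z i)) g ≠ 0} →
      ℙ (RatFunc F) (Fin n → RatFunc F), ∀ z, R z = Projectivization.mk (RatFunc F) _ (hzne z) :=
    ⟨fun z => Projectivization.mk (RatFunc F) _ (hzne z), fun z => rfl⟩
  have hRrep : ∀ z, ∃ u : (RatFunc F)ˣ,
      (R z).rep = u • (fun i => algebraMap F[X] (RatFunc F) (z.1 i)) := by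
    intro z
    obtain ⟨u, hu⟩ := Projectivization.exists_smul_eq_mk_rep (RatFunc F) _ (hzne z)
    exact ⟨u, by rw [hR, hu]⟩
  choose u hu using hRrep
  have hmult : ∀ z, ∃ e : F[X], ∀ i, z.1 i = e * c (R z) i := by
    intro z
    apply multiple_of_primitive (c (R z)) z.1 (hcp (R z)) ((u z : RatFunc F)⁻¹ * (b (R z))⁻¹)
    intro i
    rw [hc (R z) i, hu z]
    have h1 := hb (R z)
    have h2 : (u z : RatFunc F) ≠ 0 := (u z).ne_zero
    simp only [Pi.smul_apply, Units.smul_def, smul_eq_mul]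
    field_simp
  choose e he using hmult
  have he0 : ∀ z, e z ≠ 0 := by
    intro z h0
    apply z.2.1
    funext i
    rw [he z i, h0, zero_mul]
    rfl
  -- membership in U
  have hmem : ∀ z, OnV n r P0.rep (Q (R z)).rep ∧
      ∃ f ∈ S, ev f P0.rep (Q (R z)).rep ≠ 0 := by
    intro z
    have h1 : P0.rep = fun i => (w : RatFunc F) * aK i ^ r := by
      rw [hP0, ← hw]
      rfl
    have h2 : (Q (R z)).rep = fun i => ((t (R z) : RatFunc F) * (u z : RatFunc F)) *
        hyp k aK (fun i => algebraMap F[X] (RatFunc F) (z.1 i)) i := by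
      rw [ht (R z), hu z]
      funext i
      have h3 := congrFun ((hypLin k aK).map_smul (u z : RatFunc F)
        (fun i => algebraMap F[X] (RatFunc F) (z.1 i))) i
      simp only [hypLin, LinearMap.coe_mk, AddHom.coe_mk, Pi.smul_apply, smul_eq_mul] at h3
      simp only [Pi.smul_apply, Units.smul_def, smul_eq_mul]
      rw [mul_assoc, ← h3]
    constructor
    · rw [OnV, h1, h2]
      have h4 : ∀ i, (w : RatFunc F) * aK i ^ r * (((t (R z) : RatFunc F) * (u z : RatFunc F)) *
          hyp k aK (fun i => algebraMap F[X] (RatFunc F) (z.1 i)) i) ^ r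
          = ((w : RatFunc F) * ((t (R z) : RatFunc F) * (u z : RatFunc F)) ^ r) *
            (aK i * hyp k aK (fun i => algebraMap F[X] (RatFunc F) (z.1 i)) i) ^ r := by
        intro i
        rw [mul_pow, mul_pow (aK i)]
        ring
      simp only [h4]
      rw [← Finset.mul_sum, ← sum_pow_exp p hr, sum_hyp, zero_pow (by omega), mul_zero]
    · refine ⟨f, hfS, ?_⟩
      rw [ev, h1, h2, bihom_eval hαβ]
      refine mul_ne_zero (mul_ne_zero (pow_ne_zero _ w.ne_zero)
        (pow_ne_zero _ (mul_ne_zero (t (R z)).ne_zero (u z).ne_zero))) ?_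
      rw [← hg]
      exact z.2.2
  -- the injection
  obtain ⟨Φ, hΦ⟩ : ∃ Φ : {z : Fin n → F[X] // z ≠ 0 ∧
      MvPolynomial.eval (fun i => algebraMap F[X] (RatFunc F) (z i)) g ≠ 0} →
      RatPts (RatFunc F) n r S × {e : F[X] // e ≠ 0}, ∀ z, Φ z = (⟨(P0, Q (R z)), hmem z⟩, ⟨e z, he0 z⟩) :=
    ⟨_, fun z => rfl⟩
  have hΦinj : Function.Injective Φ := by
    intro z z' h
    rw [hΦ, hΦ] at h
    have h1 := congrArg (fun v => v.1.1.2) h
    have h2 := congrArg (fun v => v.2.1) h
    simp only at h1 h2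
    have h3 := hQinj h1
    apply Subtype.ext
    funext i
    rw [he z i, he z' i, h2, h3]
  have hprod := (Summable.mul_of_nonneg hsum0 (hq ▸ summable_scalars F hn2)
    (fun P => by positivity) (fun g => by positivity)).comp_injective hΦinj
  apply not_summable_vectors hn2 g hg0
  rw [← hq]
  refine Summable.of_nonneg_of_le (fun z => by positivity) (fun z => ?_)
    (hprod.mul_left (q ^ (s0 * (n * (r * maxDeg a) : ℕ) + (n : ℝ) * maxDeg a)))
  rw [Function.comp_apply, hΦ]
  simp only
  -- degrees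
  have hdeg : (e z).natDegree + maxDeg (c (R z)) ≤ maxDeg z.1 := by
    obtain ⟨i0, hi0⟩ : ∃ i, c (R z) i ≠ 0 := by
      by_contra hcon
      push Not at hcon
      apply z.2.1
      funext i
      rw [he z i, hcon i, mul_zero]
      rfl
    obtain ⟨i, hi, hi'⟩ : ∃ i, c (R z) i ≠ 0 ∧ (c (R z) i).natDegree = maxDeg (c (R z)) := by
      obtain ⟨i, _, hi⟩ := Finset.exists_mem_eq_sup (Finset.univ : Finset (Fin n))
        ⟨i0, Finset.mem_univ _⟩ (fun i => (c (R z) i).natDegree)
      by_cases h0 : c (R z) i = 0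
      · refine ⟨i0, hi0, ?_⟩
        rw [h0, Polynomial.natDegree_zero] at hi
        have h1 : (c (R z) i0).natDegree ≤ maxDeg (c (R z)) :=
          Finset.le_sup (f := fun i => (c (R z) i).natDegree) (Finset.mem_univ i0)
        have h2 : maxDeg (c (R z)) = 0 := hi
        omega
      · exact ⟨i, h0, hi.symm⟩
    have h1 : (z.1 i).natDegree ≤ maxDeg z.1 :=
      Finset.le_sup (f := fun i => (z.1 i).natDegree) (Finset.mem_univ i)
    rw [he z i, Polynomial.natDegree_mul (he0 z) hi, hi'] at h1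
    exact h1
  have hh : (hgt (⟨(P0, Q (R z)), hmem z⟩ : RatPts (RatFunc F) n r S) : ℝ)
      ≤ ((n * (r * maxDeg a) : ℕ) : ℝ) + ((n : ℝ) + 1 - r) * ((maxDeg a : ℝ) + maxDeg (c (R z))) := by
    have h1 := height_bound (p := r) k a (c (R z)) P0.rep (Q (R z)).rep (w : RatFunc F)
      ((t (R z) : RatFunc F) * (b (R z))⁻¹) w.ne_zero
      (mul_ne_zero (t (R z)).ne_zero (inv_ne_zero (hb (R z))))
      (by
        intro i
        rw [hP0, ← hw]
        rfl)
      (by
        intro i
        rw [ht (R z)]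
        have h3 := congrFun ((hypLin k aK).map_smul (b (R z)) ((R z).rep)) i
        simp only [hypLin, LinearMap.coe_mk, AddHom.coe_mk, Pi.smul_apply, smul_eq_mul] at h3
        have h4 : (fun j => algebraMap F[X] (RatFunc F) (c (R z) j)) = b (R z) • (R z).rep := by
          funext j
          rw [hc (R z) j]
          rfl
        simp only [Pi.smul_apply, Units.smul_def, smul_eq_mul]
        rw [h4]
        have h5 : hyp k (fun i => algebraMap F[X] (RatFunc F) (a i)) (b (R z) • (R z).rep) i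
          = b (R z) * hyp k aK (R z).rep i := h3
        rw [h5]
        have := hb (R z)
        field_simp)
    have h2 : ((n * (r * maxDeg a) + (n + 1 - r) * (maxDeg a + maxDeg (c (R z))) : ℕ) : ℝ)
        = ((n * (r * maxDeg a) : ℕ) : ℝ) + ((n : ℝ) + 1 - r) * ((maxDeg a : ℝ) + maxDeg (c (R z))) := by
      rw [Nat.cast_add, Nat.cast_mul (n + 1 - r), Nat.cast_sub (by omega)]
      push_cast
      ring
    rw [← h2]
    exact_mod_cast h1
  have hs0pos : 0 ≤ s0 := by rw [hs0]; positivity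
  rw [← Real.rpow_natCast, ← Real.rpow_natCast, ← Real.rpow_neg hq0.le, ← Real.rpow_neg hq0.le,
    ← Real.rpow_add hq0, ← Real.rpow_add hq0]
  apply Real.rpow_le_rpow_of_exponent_le hq1
  have h1 := mul_le_mul_of_nonneg_left hh hs0pos
  have h2 : s0 * (((n * (r * maxDeg a) : ℕ) : ℝ) +
      ((n : ℝ) + 1 - r) * ((maxDeg a : ℝ) + maxDeg (c (R z))))
      = s0 * ((n * (r * maxDeg a) : ℕ) : ℝ) + (n : ℝ) * maxDeg a + (n : ℝ) * maxDeg (c (R z)) := by
    rw [mul_add, ← mul_assoc s0 ((n : ℝ) + 1 - r), hs0n]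
    ring
  rw [h2] at h1
  have h3 : (n : ℝ) * ((e z).natDegree + maxDeg (c (R z))) ≤ (n : ℝ) * maxDeg z.1 := by
    apply mul_le_mul_of_nonneg_left _ (by positivity)
    exact_mod_cast hdeg
  rw [Nat.cast_mul n (maxDeg z.1), Nat.cast_mul n (e z).natDegree]
  linarith

end Pool.Agent.Y713.FI
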