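import Mathlib
import Pool.Agent.Results.MP_7b039f_nt.FrobeniusIncidence

set_option autoImplicit false

/-!
# The height zeta function of the whole variety: convergence
-/

open Polynomial LinearAlgebra.Projectivization

namespace Pool.Agent.Y713.FI

open Pool.Agent.Results.MP_7b039f_nt.FrobeniusIncidence

/-- The entries have no common divisor. -/
def Prim {F : Type} [Field F] {ι : Type} (c : ι → F[X]) : Prop :=
  ∀ d : F[X], (∀ i, d ∣ c i) → IsUnit d

lemma multiple_of_prim {F : Type} [Field F] {ι : Type} (c z : ι → F[X])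
    (hc : Prim c) (l : RatFunc F)
    (h : ∀ i, algebraMap F[X] (RatFunc F) (z i) = l * algebraMap F[X] (RatFunc F) (c i)) :
    ∃ g : F[X], ∀ i, z i = g * c i := by
  have hden : (l.denom) ≠ 0 := RatFunc.denom_ne_zero l
  have hl : l * algebraMap F[X] (RatFunc F) l.denom = algebraMap F[X] (RatFunc F) l.num := by
    have := RatFunc.num_div_denom l
    have h2 : algebraMap F[X] (RatFunc F) l.denom ≠ 0 := by simpa using hden
    field_simp at this
    linear_combination -this
  have hcop : IsCoprime l.num l.denom := RatFunc.isCoprime_num_denom l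
  have hrel : ∀ i, z i * l.denom = l.num * c i := by
    intro i
    have hinj : Function.Injective (algebraMap F[X] (RatFunc F)) :=
      IsFractionRing.injective F[X] (RatFunc F)
    apply hinj
    rw [map_mul, map_mul, h i, ← hl]
    ring
  have hdiv : ∀ i, l.denom ∣ c i := by
    intro i
    have : l.denom ∣ l.num * c i := ⟨z i, by rw [← hrel i, mul_comm]⟩
    exact (hcop.symm.dvd_of_dvd_mul_left this)
  have hu := hc _ hdiv
  obtain ⟨u, hu'⟩ := hu
  refine ⟨l.num * (↑u⁻¹ : F[X]), ?_⟩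
  intro i
  have h1 := hrel i
  have : z i = z i * l.denom * (↑u⁻¹ : F[X]) := by
    rw [← hu', mul_assoc, Units.mul_inv, mul_one]
  rw [this, h1]
  ring

lemma prim_mul {F : Type} [Field F] {ι κ : Type} (x : ι → F[X]) (y : κ → F[X])
    (hx : Prim x) (hy : Prim y) (n b : ℕ) :
    Prim (fun ij : ι × κ => x ij.1 ^ n * y ij.2 ^ b) := by
  intro d hd
  by_contra hu
  obtain ⟨π, hπ, hπd⟩ : ∃ π : F[X], Irreducible π ∧ ∀ ij : ι × κ, π ∣ x ij.1 ^ n * y ij.2 ^ b := by
    by_cases h0 : d = 0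
    · refine ⟨X, irreducible_X, fun ij => ?_⟩
      have h1 : x ij.1 ^ n * y ij.2 ^ b = 0 := zero_dvd_iff.mp (h0 ▸ hd ij)
      rw [h1]
      exact dvd_zero _
    · obtain ⟨π, h1, h2⟩ := WfDvdMonoid.exists_irreducible_factor hu h0
      exact ⟨π, h1, fun ij => h2.trans (hd ij)⟩
  obtain ⟨i, hi⟩ : ∃ i, ¬ π ∣ x i := by
    by_contra hcon
    push Not at hcon
    exact hπ.not_isUnit (hx π hcon)
  obtain ⟨j, hj⟩ : ∃ j, ¬ π ∣ y j := by
    by_contra hcon
    push Not at hcon
    exact hπ.not_isUnit (hy π hcon)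
  rcases hπ.prime.dvd_or_dvd (hπd (i, j)) with h | h
  · exact hi (hπ.prime.dvd_of_dvd_pow h)
  · exact hj (hπ.prime.dvd_of_dvd_pow h)

lemma exists_max {F : Type} [Field F] {m : ℕ} (z : Fin m → F[X]) (hz : z ≠ 0) :
    ∃ i, z i ≠ 0 ∧ (z i).natDegree = maxDeg z := by
  obtain ⟨i0, hi0⟩ : ∃ i, z i ≠ 0 := by
    by_contra hcon
    push Not at hcon
    exact hz (_root_.funext hcon)
  obtain ⟨i, _, hi⟩ := Finset.exists_mem_eq_sup (Finset.univ : Finset (Fin m))
    ⟨i0, Finset.mem_univ _⟩ (fun i => (z i).natDegree)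
  by_cases h0 : z i = 0
  · refine ⟨i0, hi0, ?_⟩
    rw [h0, Polynomial.natDegree_zero] at hi
    have h1 : (z i0).natDegree ≤ maxDeg z :=
      Finset.le_sup (f := fun i => (z i).natDegree) (Finset.mem_univ i0)
    have h2 : maxDeg z = 0 := hi
    omega
  · exact ⟨i, h0, hi.symm⟩

lemma deg_le {F : Type} [Field F] {m : ℕ} (z : Fin m → F[X]) (i : Fin m) :
    (z i).natDegree ≤ maxDeg z :=
  Finset.le_sup (f := fun i => (z i).natDegree) (Finset.mem_univ i)

/-- exponents of the monomial `x_i ^ n * y_j ^ b` -/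
def mono {n : ℕ} (b : ℕ) (i j : Fin (n + 1)) : BiExp n n b :=
  ⟨(Pi.single i n, Pi.single j b), by simp, by simp⟩

lemma sv_mono {K : Type} [Field K] {n : ℕ} (b : ℕ) (i j : Fin (n + 1)) (x y : Fin (n + 1) → K) :
    segreVeronese n n b x y (mono b i j) = x i ^ n * y j ^ b := by
  have key : ∀ (v : Fin (n + 1) → K) (i : Fin (n + 1)) (a : ℕ),
      ∏ k, v k ^ (Pi.single i a : Fin (n + 1) → ℕ) k = v i ^ a := by
    intro v i a
    rw [Finset.prod_eq_single i]
    · simp
    · intro k _ hk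
      simp [Pi.single_eq_of_ne hk]
    · intro h
      exact absurd (Finset.mem_univ i) h
  simp only [segreVeronese, mono, key]

lemma le_height {F : Type} [Field F] {n : ℕ} (b : ℕ) (x y : Fin (n + 1) → RatFunc F)
    (x' y' : Fin (n + 1) → F[X]) (w t : RatFunc F) (hw : w ≠ 0) (ht : t ≠ 0)
    (hx : ∀ i, algebraMap F[X] (RatFunc F) (x' i) = w * x i)
    (hy : ∀ i, algebraMap F[X] (RatFunc F) (y' i) = t * y i)
    (hxp : Prim x') (hyp : Prim y') (hx0 : x' ≠ 0) (hy0 : y' ≠ 0) :
    n * maxDeg x' + b * maxDeg y' ≤ height F (segreVeronese n n b x y) := by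
  have hinj : Function.Injective (algebraMap F[X] (RatFunc F)) :=
    IsFractionRing.injective F[X] (RatFunc F)
  have hne : {d : ℕ | ∃ (a : RatFunc F) (c : BiExp n n b → F[X]), a ≠ 0 ∧
      (∀ i, algebraMap F[X] (RatFunc F) (c i) = a * segreVeronese n n b x y i) ∧
      ∀ i, (c i).natDegree ≤ d}.Nonempty := by
    refine ⟨n * maxDeg x' + b * maxDeg y', w ^ n * t ^ b,
      fun m => (∏ i, x' i ^ m.1.1 i) * ∏ i, y' i ^ m.1.2 i,
      mul_ne_zero (pow_ne_zero _ hw) (pow_ne_zero _ ht), ?_, ?_⟩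
    · rintro ⟨m, hm1, hm2⟩
      simp only [segreVeronese, map_mul, map_prod, map_pow, hx, hy, mul_pow,
        Finset.prod_mul_distrib, Finset.prod_pow_eq_pow_sum, hm1, hm2]
      ring
    · rintro ⟨m, hm1, hm2⟩
      refine (Polynomial.natDegree_mul_le).trans (Nat.add_le_add ?_ ?_)
      · refine (Polynomial.natDegree_prod_le _ _).trans ?_
        have : ∀ i ∈ Finset.univ, (x' i ^ m.1 i).natDegree ≤ m.1 i * maxDeg x' := by
          intro i _
          exact (Polynomial.natDegree_pow_le).trans (Nat.mul_le_mul_left _ (deg_le _ i))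
        refine (Finset.sum_le_sum this).trans ?_
        rw [← Finset.sum_mul, hm1]
      · refine (Polynomial.natDegree_prod_le _ _).trans ?_
        have : ∀ i ∈ Finset.univ, (y' i ^ m.2 i).natDegree ≤ m.2 i * maxDeg y' := by
          intro i _
          exact (Polynomial.natDegree_pow_le).trans (Nat.mul_le_mul_left _ (deg_le _ i))
        refine (Finset.sum_le_sum this).trans ?_
        rw [← Finset.sum_mul, hm2]
  obtain ⟨a, c, ha, hc, hd⟩ := Nat.sInf_mem hne
  change ∀ i, (c i).natDegree ≤ height F (segreVeronese n n b x y) at hd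
  obtain ⟨g, hg⟩ := multiple_of_prim
    (fun ij : Fin (n + 1) × Fin (n + 1) => x' ij.1 ^ n * y' ij.2 ^ b)
    (fun ij => c (mono b ij.1 ij.2)) (prim_mul x' y' hxp hyp n b)
    (a * (w ^ n * t ^ b)⁻¹) (by
      rintro ⟨i, j⟩
      simp only
      rw [hc, sv_mono, map_mul, map_pow, map_pow, hx, hy, mul_pow, mul_pow]
      have h1 := pow_ne_zero n hw
      have h2 := pow_ne_zero b ht
      field_simp)
  obtain ⟨i, hi0, hi⟩ := exists_max x' hx0
  obtain ⟨j, hj0, hj⟩ := exists_max y' hy0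
  have hxi : x i ≠ 0 := by
    intro h0
    apply hi0
    apply hinj
    rw [hx, h0, mul_zero, map_zero]
  have hyj : y j ≠ 0 := by
    intro h0
    apply hj0
    apply hinj
    rw [hy, h0, mul_zero, map_zero]
  have hc0 : c (mono b i j) ≠ 0 := by
    intro h0
    have h1 := hc (mono b i j)
    rw [h0, map_zero, sv_mono] at h1
    exact mul_ne_zero ha (mul_ne_zero (pow_ne_zero _ hxi) (pow_ne_zero _ hyj)) h1.symm
  have hg1 := hg (i, j)
  simp only at hg1
  have hg0 : g ≠ 0 := by
    rintro rfl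
    exact hc0 (by rw [hg1, zero_mul])
  have h3 := hd (mono b i j)
  rw [hg1, natDegree_mul hg0 (mul_ne_zero (pow_ne_zero _ hi0) (pow_ne_zero _ hj0)),
    natDegree_mul (pow_ne_zero _ hi0) (pow_ne_zero _ hj0), natDegree_pow, natDegree_pow, hi, hj]
    at h3
  omega

/-- `∑ q ^ (- σ max deg z)` over all polynomial vectors of length `N` converges for `σ > N`. -/
lemma summable_vec (F : Type) [Field F] [Finite F] (N : ℕ) {σ : ℝ} (hσ : (N : ℝ) < σ) :
    Summable (fun z : Fin N → F[X] => (Nat.card F : ℝ) ^ (-(σ * (maxDeg z : ℝ)))) := by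
  classical
  have hq2 : 2 ≤ Nat.card F := Finite.one_lt_card
  set q : ℝ := (Nat.card F : ℝ) with hq
  have hq2' : (2 : ℝ) ≤ q := by rw [hq]; exact_mod_cast hq2
  have hq1 : (1 : ℝ) < q := by linarith
  have hq0 : (0 : ℝ) < q := by linarith
  set ρ : ℝ := q ^ ((N : ℝ) - σ) with hρ
  have hρ0 : 0 < ρ := Real.rpow_pos_of_pos hq0 _
  have hρ1 : ρ < 1 := Real.rpow_lt_one_of_one_lt_of_neg hq1 (by linarith)
  apply summable_of_sum_le (c := q ^ N * (1 - ρ)⁻¹)
  · intro z; positivity
  · intro u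
    set M := u.sup (fun z => maxDeg z) with hM
    have hmaps : ∀ z ∈ u, maxDeg z ∈ Finset.range (M + 1) := by
      intro z hz
      rw [Finset.mem_range]
      have := Finset.le_sup (f := fun z : Fin N → F[X] => maxDeg z) hz
      omega
    rw [← Finset.sum_fiberwise_of_maps_to hmaps]
    have hfib : ∀ d ∈ Finset.range (M + 1),
        ∑ z ∈ u with maxDeg z = d, q ^ (-(σ * (maxDeg z : ℝ))) ≤ q ^ N * ρ ^ d := by
      intro d _
      have h1 : ∑ z ∈ u with maxDeg z = d, q ^ (-(σ * (maxDeg z : ℝ)))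
          = ({z ∈ u | maxDeg z = d}.card : ℝ) * q ^ (-(σ * (d : ℝ))) := by
        rw [← nsmul_eq_mul, ← Finset.sum_const]
        apply Finset.sum_congr rfl
        intro z hz
        rw [(Finset.mem_filter.mp hz).2]
      have h2 : {z ∈ u | maxDeg z = d}.card ≤ Nat.card F ^ ((d + 1) * N) := by
        have h3 : (Fintype.piFinset (fun _ : Fin N => polyLT F (d + 1))).card
            = Nat.card F ^ ((d + 1) * N) := by
          rw [Fintype.card_piFinset]
          simp [card_polyLT, pow_mul]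
        rw [← h3]
        apply Finset.card_le_card
        intro z hz
        rw [Fintype.mem_piFinset]
        intro i
        rw [mem_polyLT_succ, ← (Finset.mem_filter.mp hz).2]
        exact deg_le z i
      have h3 : ({z ∈ u | maxDeg z = d}.card : ℝ) ≤ q ^ ((d + 1) * N) := by
        rw [hq]; exact_mod_cast h2
      rw [h1]
      refine (mul_le_mul_of_nonneg_right h3 (by positivity)).trans (le_of_eq ?_)
      rw [hρ, ← Real.rpow_natCast, ← Real.rpow_natCast, ← Real.rpow_natCast, ← Real.rpow_mul hq0.le,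
        ← Real.rpow_add hq0, ← Real.rpow_add hq0]
      congr 1
      push_cast
      ring
    refine (Finset.sum_le_sum hfib).trans ?_
    rw [← Finset.mul_sum]
    apply mul_le_mul_of_nonneg_left _ (by positivity)
    have := (summable_geometric_of_lt_one hρ0.le hρ1).sum_le_tsum
        (Finset.range (M + 1)) (fun i _ => by positivity)
    rwa [tsum_geometric_of_lt_one hρ0.le hρ1] at this

lemma pow_inj_exp {R : Type*} [CommRing R] [IsDomain R] (p : ℕ) [Fact p.Prime] [CharP R p]
    {e r : ℕ} (hr : r = p ^ e) {a b : R} (h : a ^ r - b ^ r = 0) : a = b := by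
  subst hr
  rw [← sub_pow_char_pow] at h
  exact sub_eq_zero.mp (pow_eq_zero_iff (pow_ne_zero _ (Fact.out : p.Prime).ne_zero) |>.mp h)

/-- Convergence of the height zeta function of `V`, hence of all open subsets. -/
lemma converges {F : Type} [Field F] [Finite F] (p : ℕ) [Fact p.Prime] [CharP F p]
    {e r : ℕ} (hr : r = p ^ e) (hr2 : 2 ≤ r) {n : ℕ} (hn : r ≤ n) (S : Set (BiPoly (RatFunc F) n))
    (s : ℝ) (hs : (n : ℝ) / ((n : ℝ) + 1 - r) < s) :
    Summable (fun P : RatPts (RatFunc F) n r S => zetaTerm s P) := by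
  classical
  have hinj : Function.Injective (algebraMap F[X] (RatFunc F)) :=
    IsFractionRing.injective F[X] (RatFunc F)
  have hq2 : 2 ≤ Nat.card F := Finite.one_lt_card
  have hq1 : (1 : ℝ) ≤ (Nat.card F : ℝ) := by exact_mod_cast (by omega : 1 ≤ Nat.card F)
  have hq0 : (0 : ℝ) < (Nat.card F : ℝ) := by linarith
  have hrn : (r : ℝ) ≤ n := by exact_mod_cast hn
  have hr2' : (2 : ℝ) ≤ r := by exact_mod_cast hr2
  have hden : (0 : ℝ) < (n : ℝ) + 1 - r := by linarith
  have hs2 : (n : ℝ) < s * ((n : ℝ) + 1 - r) := by rwa [div_lt_iff₀ hden] at hs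
  have hs0 : 0 < s := lt_of_le_of_lt (by positivity) hs
  have hs1 : ((n + 1 : ℕ) : ℝ) < s * n := by
    push_cast
    have h1 : ((n : ℝ) + 1) * ((n : ℝ) + 1 - r) ≤ (n : ℝ) * n := by nlinarith
    have h2 : ((n : ℝ) + 1) * ((n : ℝ) + 1 - r) < (s * n) * ((n : ℝ) + 1 - r) := by
      have hn0 : (0 : ℝ) < n := by linarith
      nlinarith
    exact lt_of_mul_lt_mul_right h2 hden.le
  have hprim : ∀ R : ProjPt (RatFunc F) n, ∃ (b : RatFunc F) (c : Fin (n + 1) → F[X]),
      b ≠ 0 ∧ (∀ i, algebraMap F[X] (RatFunc F) (c i) = b * R.rep i) ∧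
      (∀ d : F[X], (∀ i, d ∣ c i) → IsUnit d) := fun R => exists_primitive R.rep R.rep_nonzero
  choose b c hb hc hcp using hprim
  have hc0 : ∀ R, c R ≠ 0 := by
    intro R h0
    apply R.rep_nonzero
    funext i
    have h1 := hc R i
    rw [h0, Pi.zero_apply, map_zero] at h1
    exact (mul_eq_zero.mp h1.symm).resolve_left (hb R)
  have hk : ∀ R, ∃ k, c R k ≠ 0 := by
    intro R
    by_contra hcon
    push Not at hcon
    exact hc0 R (_root_.funext hcon)
  choose k hk using hk
  have hcinj : Function.Injective c := by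
    intro R R' h
    rw [← R.mk_rep, ← R'.mk_rep, Projectivization.mk_eq_mk_iff]
    refine ⟨Units.mk0 ((b R)⁻¹ * b R') (mul_ne_zero (inv_ne_zero (hb R)) (hb R')), ?_⟩
    funext i
    have h1 := hc R i
    have h2 := hc R' i
    rw [← h, h1] at h2
    rw [Units.smul_def, Pi.smul_apply, Units.val_mk0, smul_eq_mul, mul_assoc, ← h2,
      inv_mul_cancel_left₀ (hb R)]
  have heq : ∀ P : RatPts (RatFunc F) n r S, ∑ i, c P.1.1 i * c P.1.2 i ^ r = 0 := by
    intro P
    apply hinj
    rw [map_sum, map_zero]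
    have h1 : ∀ i, algebraMap F[X] (RatFunc F) (c P.1.1 i * c P.1.2 i ^ r)
        = (b P.1.1 * b P.1.2 ^ r) * (P.1.1.rep i * P.1.2.rep i ^ r) := by
      intro i
      rw [map_mul, map_pow, hc, hc, mul_pow]
      ring
    simp only [h1]
    rw [← Finset.mul_sum]
    have h2 : ∑ i, P.1.1.rep i * P.1.2.rep i ^ r = 0 := P.2.1
    rw [h2, mul_zero]
  have : CharP F[X] p := inferInstance
  obtain ⟨Φ, hΦ⟩ : ∃ Φ : RatPts (RatFunc F) n r S → (Fin (n + 1) → F[X]) × (Fin n → F[X]),
      ∀ P, Φ P = (c P.1.1, fun j => c P.1.2 ((k P.1.1).succAbove j)) := ⟨_, fun P => rfl⟩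
  have hΦinj : Function.Injective Φ := by
    intro P P' h
    rw [hΦ, hΦ, Prod.mk.injEq] at h
    have h1 : P.1.1 = P'.1.1 := hcinj h.1
    have h2 : ∀ j, c P.1.2 ((k P.1.1).succAbove j) = c P'.1.2 ((k P.1.1).succAbove j) := by
      intro j
      have h5 : c P.1.2 ((k P.1.1).succAbove j) = c P'.1.2 ((k P'.1.1).succAbove j) := congrFun h.2 j
      rw [h5, h1]
    have h3 : c P.1.2 (k P.1.1) = c P'.1.2 (k P.1.1) := by
      have e1 := heq P
      have e2 := heq P'
      rw [← h1] at e2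
      rw [Fin.sum_univ_succAbove _ (k P.1.1)] at e1 e2
      simp only [h2] at e1
      have e3 : c P.1.1 (k P.1.1) * (c P.1.2 (k P.1.1) ^ r - c P'.1.2 (k P.1.1) ^ r) = 0 := by
        linear_combination e1 - e2
      have e4 := (mul_eq_zero.mp e3).resolve_left (hk P.1.1)
      exact pow_inj_exp p hr e4
    have h4 : P.1.2 = P'.1.2 := by
      apply hcinj
      funext i
      rcases Fin.eq_self_or_eq_succAbove (k P.1.1) i with rfl | ⟨j, rfl⟩
      · exact h3
      · exact h2 j
    exact Subtype.ext (Prod.ext h1 h4)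
  have hprod := (Summable.mul_of_nonneg (summable_vec F (n + 1) hs1) (summable_vec F n hs2)
    (fun z => by positivity) (fun z => by positivity)).comp_injective hΦinj
  refine Summable.of_nonneg_of_le (fun P => by unfold zetaTerm; positivity) (fun P => ?_) hprod
  rw [Function.comp_apply, hΦ]
  simp only [zetaTerm]
  rw [← Real.rpow_add hq0]
  apply Real.rpow_le_rpow_of_exponent_le hq1
  have h1 := le_height (n + 1 - r) P.1.1.rep P.1.2.rep (c P.1.1) (c P.1.2) (b P.1.1) (b P.1.2)
    (hb _) (hb _) (hc _) (hc _) (hcp _) (hcp _) (hc0 _) (hc0 _)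
  change _ ≤ hgt P at h1
  have h2 : maxDeg (fun j => c P.1.2 ((k P.1.1).succAbove j)) ≤ maxDeg (c P.1.2) :=
    Finset.sup_le fun j _ => deg_le _ _
  have h3 : (n : ℝ) * maxDeg (c P.1.1) + ((n : ℝ) + 1 - r) * maxDeg (c P.1.2) ≤ (hgt P : ℝ) := by
    have h4 : ((n * maxDeg (c P.1.1) + (n + 1 - r) * maxDeg (c P.1.2) : ℕ) : ℝ) =
        (n : ℝ) * maxDeg (c P.1.1) + ((n : ℝ) + 1 - r) * maxDeg (c P.1.2) := by
      rw [Nat.cast_add, Nat.cast_mul, Nat.cast_mul, Nat.cast_sub (by omega)]
      push_cast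
      ring
    rw [← h4]
    exact_mod_cast h1
  have h5 : (maxDeg (fun j => c P.1.2 ((k P.1.1).succAbove j)) : ℝ) ≤ maxDeg (c P.1.2) := by
    exact_mod_cast h2
  have h6 := mul_le_mul_of_nonneg_left h3 hs0.le
  have h7 : s * ((n : ℝ) + 1 - r) * (maxDeg (fun j => c P.1.2 ((k P.1.1).succAbove j)) : ℝ) ≤
      s * ((n : ℝ) + 1 - r) * maxDeg (c P.1.2) :=
    mul_le_mul_of_nonneg_left h5 (mul_nonneg hs0.le hden.le)
  linarith

end Pool.Agent.Y713.FI
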